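import Pool.Agent.Q292.LC.Stm1

/-!
Bordered determinants of permutations (jobs P3 and P4 of project LC).
-/

set_option autoImplicit false

namespace Pool.Agent.Q153.LC

open Finset Equiv Matrix Q292.LC

variable {V : Type} [DecidableEq V]

/-- unit row -/
def ev (z : V) : V → ℝ := fun b => if z = b then 1 else 0

variable [Fintype V]

lemma mat_apply (w : ℝ) (U : Finset V) (g : Perm V) (a b : V) :
    (1 - w • (dg U * pm g)) a b = ev a b - w * (if a ∈ U then ev (g a) b else 0) := by
  unfold dg pm ev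
  rw [Matrix.sub_apply, Matrix.smul_apply, Matrix.diagonal_mul, Matrix.one_apply]
  simp only [Matrix.of_apply, smul_eq_mul]
  by_cases ha : a ∈ U <;> simp [ha]

lemma row_out (w : ℝ) (U : Finset V) (g : Perm V) (a : V) (ha : a ∉ U) :
    (1 - w • (dg U * pm g)) a = ev a := by
  funext b
  rw [mat_apply]
  simp [ha]

lemma row_in (w : ℝ) (U : Finset V) (g : Perm V) (a : V) (ha : a ∈ U) :
    (1 - w • (dg U * pm g)) a = ev a + (-w) • ev (g a) := by
  funext b
  rw [mat_apply]
  simp [ha]
  ring

/-- the determinant with the row `y` replaced by the unit row at `z` -/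
noncomputable def DD (w : ℝ) (U : Finset V) (g : Perm V) (y z : V) : ℝ :=
  ((1 - w • (dg U * pm g)).updateRow y (ev z)).det

lemma DD_self (w : ℝ) (U : Finset V) (g : Perm V) (y : V) (hy : y ∉ U) :
    DD w U g y y = dS w U (pm g) := by
  unfold DD dS
  rw [← row_out w U g y hy, Matrix.updateRow_eq_self]

lemma DD_out (w : ℝ) (U : Finset V) (g : Perm V) (y z : V) (hz : z ∉ U) (hzy : z ≠ y) :
    DD w U g y z = 0 := by
  unfold DD
  rw [← row_out w U g z hz]
  exact Matrix.det_updateRow_eq_zero hzy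

lemma DD_in (w : ℝ) (U : Finset V) (g : Perm V) (y z : V) (hy : y ∉ U) (hz : z ∈ U) :
    DD w U g y z = w * DD w U g y (g z) := by
  have hzy : z ≠ y := by
    rintro rfl
    exact hy hz
  have h1 : ((1 - w • (dg U * pm g)).updateRow y ((1 - w • (dg U * pm g)) z)).det = 0 :=
    Matrix.det_updateRow_eq_zero hzy
  rw [row_in w U g z hz, Matrix.det_updateRow_add, Matrix.det_updateRow_smul] at h1
  unfold DD
  linarith

lemma bd_eq (w : ℝ) (U : Finset V) (g : Perm V) (x y : V) (hy : y ∉ U) :
    bd w U (pm g) x y = dS w U (pm g) + w * DD w U g y (g x) := by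
  have h0 : (1 - w • (dg U * pm g) + w • Matrix.of fun a b => if a = y then pm g x b else 0) =
      (1 - w • (dg U * pm g)).updateRow y (ev y + w • ev (g x)) := by
    ext a b
    rw [Matrix.add_apply, Matrix.smul_apply, Matrix.of_apply, Matrix.updateRow_apply]
    by_cases ha : a = y
    · subst ha
      simp only [if_true, Pi.add_apply, Pi.smul_apply]
      rw [row_out w U g a hy]
      rfl
    · simp [ha]
  unfold bd
  rw [h0, Matrix.det_updateRow_add, Matrix.det_updateRow_smul]
  have := DD_self w U g y hy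
  unfold DD at this ⊢
  rw [this]

/-- a run inside `U` -/
lemma DD_run (w : ℝ) (U : Finset V) (g : Perm V) (x y : V) (hy : y ∉ U) (m : ℕ)
    (h : ∀ i, 0 < i → i ≤ m → (g ^ i) x ∈ U) :
    DD w U g y (g x) = w ^ m * DD w U g y ((g ^ (m + 1)) x) := by
  induction m with
  | zero => simp
  | succ m ih =>
    rw [ih (fun i h1 h2 => h i h1 (by omega)), DD_in w U g y _ hy (h (m + 1) (by omega) le_rfl)]
    rw [pow_succ' g (m + 1), Perm.mul_apply, pow_succ w m]
    ring

theorem p3a (w : ℝ) (U : Finset V) (g : Perm V) (x y : V) (hy : y ∉ U) (m : ℕ) (hm : 0 < m)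
    (h : ∀ i, 0 < i → i < m → (g ^ i) x ∈ U) (hmy : (g ^ m) x = y) :
    bd w U (pm g) x y - dS w U (pm g) = w ^ m * dS w U (pm g) := by
  obtain ⟨k, rfl⟩ : ∃ k, m = k + 1 := ⟨m - 1, by omega⟩
  rw [bd_eq w U g x y hy, DD_run w U g x y hy k (fun i h1 h2 => h i h1 (by omega)), hmy,
    DD_self w U g y hy]
  ring

/-- the walk leaves `U` not at `y` -/
theorem p3b (w : ℝ) (U : Finset V) (g : Perm V) (x y : V) (hy : y ∉ U)
    (h : ¬ ∃ m : ℕ, 0 < m ∧ (∀ i, 0 < i → i < m → (g ^ i) x ∈ U) ∧ (g ^ m) x = y)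
    (hex : ∃ m : ℕ, 0 < m ∧ (g ^ m) x ∉ U) :
    bd w U (pm g) x y - dS w U (pm g) = 0 := by
  classical
  have hk := Nat.find_spec hex
  have hk2 : ∀ i, 0 < i → i < Nat.find hex → (g ^ i) x ∈ U := by
    intro i h1 h2
    have := Nat.find_min hex h2
    by_contra h3
    exact this ⟨h1, h3⟩
  set k := Nat.find hex with hkdef
  obtain ⟨j, hj⟩ : ∃ j, k = j + 1 := ⟨k - 1, by omega⟩
  have hne : (g ^ k) x ≠ y := fun h3 => h ⟨k, hk.1, hk2, h3⟩
  rw [bd_eq w U g x y hy, DD_run w U g x y hy j (fun i h1 h2 => hk2 i h1 (by omega)), ← hj,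
    DD_out w U g y _ hk.2 hne]
  ring

theorem p3 : S_P3 := by
  intro V _ _ g w U x y hw0 hw1 hy
  refine ⟨fun m hm h hmy => p3a w U g x y hy m hm h hmy, fun h => ?_⟩
  by_cases hex : ∃ m : ℕ, 0 < m ∧ (g ^ m) x ∉ U
  · exact p3b w U g x y hy h hex
  · push Not at hex
    have hN : 0 < orderOf g := orderOf_pos g
    have h1 := DD_run w U g x y hy (orderOf g) (fun i h1 _ => hex i h1)
    rw [pow_succ' g, pow_orderOf_eq_one, mul_one] at h1
    have h2 : w ^ orderOf g < 1 := pow_lt_one₀ hw0 hw1 hN.ne'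
    have h3 : DD w U g y (g x) = 0 := by
      have : (1 - w ^ orderOf g) * DD w U g y (g x) = 0 := by linarith
      rcases mul_eq_zero.mp this with h4 | h4
      · linarith
      · exact h4
    rw [bd_eq w U g x y hy, h3]
    ring

/-- removing one point -/
lemma dS_erase (w : ℝ) (S : Finset V) (g : Perm V) (a : V) (ha : a ∈ S) :
    dS w S (pm g) = dS w (S.erase a) (pm g) -
      (bd w (S.erase a) (pm g) a a - dS w (S.erase a) (pm g)) := by
  have hU : a ∉ S.erase a := Finset.notMem_erase a S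
  have h0 : (1 - w • (dg S * pm g)) =
      (1 - w • (dg (S.erase a) * pm g)).updateRow a (ev a + (-w) • ev (g a)) := by
    ext b c
    rw [Matrix.updateRow_apply]
    by_cases hb : b = a
    · subst hb
      rw [if_pos rfl, row_in w S g b ha]
    · rw [if_neg hb, mat_apply, mat_apply]
      simp [hb]
  rw [bd_eq w _ g a a hU]
  conv_lhs => unfold dS
  rw [h0, Matrix.det_updateRow_add, Matrix.det_updateRow_smul]
  have h1 := DD_self w (S.erase a) g a hU
  unfold DD at h1 ⊢
  rw [h1]
  ring

/-- P4 (3) for all `w` -/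
theorem p4c (w : ℝ) (S : Finset V) (g : Perm V) (a : V) (ha : a ∈ S)
    (hex : ∃ i : ℕ, (g ^ i) a ∉ S) :
    dS w S (pm g) = dS w (S.erase a) (pm g) := by
  have hU : a ∉ S.erase a := Finset.notMem_erase a S
  rw [dS_erase w S g a ha, p3b w (S.erase a) g a a hU]
  · ring
  · rintro ⟨m, hm, h1, h2⟩
    obtain ⟨i, hi⟩ := hex
    apply hi
    have h3 : (g ^ i) a = (g ^ (i % m)) a := by
      conv_lhs => rw [← Nat.div_add_mod i m]
      rw [Nat.add_comm, pow_add, Perm.mul_apply, pow_mul]
      congr 1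
      have : ∀ k : ℕ, ((g ^ m) ^ k) a = a := by
        intro k
        induction k with
        | zero => simp
        | succ k ih => rw [pow_succ, Perm.mul_apply, h2, ih]
      exact this _
    rw [h3]
    rcases Nat.eq_zero_or_pos (i % m) with h4 | h4
    · rw [h4]; simpa using ha
    · exact Finset.mem_of_mem_erase (h1 _ h4 (Nat.mod_lt _ hm))
  · obtain ⟨i, hi⟩ := hex
    refine ⟨i, ?_, fun h => hi (Finset.mem_of_mem_erase h)⟩
    rcases Nat.eq_zero_or_pos i with h4 | h4
    · subst h4
      exact absurd ha (by simpa using hi)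
    · exact h4

lemma mem_cyc (g : Perm V) (a b : V) : b ∈ cyc g a ↔ g.SameCycle a b := by
  unfold cyc
  simp

lemma self_mem_cyc (g : Perm V) (a : V) : a ∈ cyc g a := by
  rw [mem_cyc]

/-- removing points of a cycle which is not contained -/
lemma dS_sdiff (w : ℝ) (T : Finset V) (g : Perm V) (a : V) (ha : a ∉ T) (B : Finset V)
    (hB : B ⊆ cyc g a) : dS w T (pm g) = dS w (T \ B) (pm g) := by
  induction B using Finset.induction_on with
  | empty => simp
  | insert b B hb ih =>
    have hB' : B ⊆ cyc g a := fun x hx => hB (Finset.mem_insert_of_mem hx)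
    rw [ih hB']
    have h1 : T \ insert b B = (T \ B).erase b := by
      ext x
      simp only [Finset.mem_sdiff, Finset.mem_insert, Finset.mem_erase]
      tauto
    rw [h1]
    by_cases hbT : b ∈ T \ B
    · apply p4c w _ g b hbT
      have h2 : g.SameCycle b a := ((mem_cyc g a b).mp (hB (Finset.mem_insert_self b B))).symm
      obtain ⟨i, _, hi⟩ := h2.exists_pow_eq'
      refine ⟨i, ?_⟩
      rw [hi]
      intro h3
      exact ha (Finset.mem_sdiff.mp h3).1
    · rw [Finset.erase_eq_of_notMem hbT]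

/-- the first return -/
lemma first_return (g : Perm V) (a : V) :
    0 < (cyc g a).card ∧ (g ^ (cyc g a).card) a = a ∧
      (∀ i, 0 < i → i < (cyc g a).card → (g ^ i) a ≠ a) := by
  have h0 : (cyc g a) = (Finset.range (Function.minimalPeriod g a)).image fun i => (g ^ i) a := by
    ext b
    rw [mem_cyc, Finset.mem_image]
    constructor
    · intro h
      obtain ⟨i, _, hi⟩ := h.exists_pow_eq'
      have hp : 0 < Function.minimalPeriod g a := by
        apply Function.minimalPeriod_pos_of_mem_periodicPts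
        refine ⟨orderOf g, orderOf_pos g, ?_⟩
        change g^[orderOf g] a = a
        rw [← Perm.coe_pow, pow_orderOf_eq_one]
        rfl
      refine ⟨i % Function.minimalPeriod g a, Finset.mem_range.mpr (Nat.mod_lt _ hp), ?_⟩
      rw [← hi, Perm.coe_pow, Perm.coe_pow]
      exact Function.iterate_mod_minimalPeriod_eq
    · rintro ⟨i, _, rfl⟩
      exact ⟨i, by simp⟩
  have h1 : (cyc g a).card = Function.minimalPeriod g a := by
    rw [h0, Finset.card_image_of_injOn, Finset.card_range]
    intro i hi j hj hij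
    have hi' := Finset.mem_coe.mp hi
    have hj' := Finset.mem_coe.mp hj
    rw [Finset.mem_range] at hi' hj'
    simp only [Perm.coe_pow] at hij
    exact Function.iterate_injOn_Iio_minimalPeriod (Set.mem_Iio.mpr hi') (Set.mem_Iio.mpr hj') hij
  refine ⟨Finset.card_pos.mpr ⟨a, self_mem_cyc g a⟩, ?_, ?_⟩
  · rw [h1, Perm.coe_pow]
    exact Function.iterate_minimalPeriod
  · intro i hi hi2
    rw [h1] at hi2
    rw [Perm.coe_pow]
    exact Function.not_isPeriodicPt_of_pos_of_lt_minimalPeriod hi.ne' hi2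

/-- P4 (4) for all `w` -/
theorem p4d (w : ℝ) (S : Finset V) (g : Perm V) (a : V) (ha : a ∈ S) (hS : cyc g a ⊆ S) :
    dS w S (pm g) = (1 - w ^ (cyc g a).card) * dS w (S \ cyc g a) (pm g) := by
  have hU : a ∉ S.erase a := Finset.notMem_erase a S
  obtain ⟨h1, h2, h3⟩ := first_return g a
  rw [dS_erase w S g a ha, p3a w (S.erase a) g a a hU (cyc g a).card h1 ?_ h2]
  · have h4 : S \ cyc g a = S.erase a \ cyc g a := by
      ext x
      simp only [Finset.mem_sdiff, Finset.mem_erase]
      constructor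
      · rintro ⟨h5, h6⟩
        refine ⟨⟨?_, h5⟩, h6⟩
        rintro rfl
        exact h6 (self_mem_cyc g x)
      · rintro ⟨⟨_, h5⟩, h6⟩
        exact ⟨h5, h6⟩
    rw [h4, ← dS_sdiff w (S.erase a) g a hU (cyc g a) subset_rfl]
    ring
  · intro i hi hi2
    rw [Finset.mem_erase]
    refine ⟨h3 i hi hi2, hS ?_⟩
    rw [mem_cyc]
    exact ⟨i, by simp⟩

lemma dS_empty (w : ℝ) (P : Matrix V V ℝ) : dS w ∅ P = 1 := by
  unfold dS dg
  simp

/-- P4 (1) -/
theorem p4a (w : ℝ) (g : Perm V) (hw0 : 0 ≤ w) (hw1 : w < 1) (S : Finset V) :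
    0 < dS w S (pm g) ∧ dS w S (pm g) ≤ 1 := by
  induction S using Finset.strongInduction with
  | H S ih =>
    rcases S.eq_empty_or_nonempty with rfl | ⟨a, ha⟩
    · rw [dS_empty]; norm_num
    · by_cases hex : ∃ i : ℕ, (g ^ i) a ∉ S
      · rw [p4c w S g a ha hex]
        exact ih _ (Finset.erase_ssubset ha)
      · push Not at hex
        have hC : cyc g a ⊆ S := by
          intro b hb
          rw [mem_cyc] at hb
          obtain ⟨i, _, hi⟩ := hb.exists_pow_eq'
          rw [← hi]
          exact hex i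
        rw [p4d w S g a ha hC]
        have h1 : S \ cyc g a ⊂ S := by
          apply Finset.sdiff_ssubset hC ⟨a, self_mem_cyc g a⟩
        obtain ⟨h2, h3⟩ := ih _ h1
        have h4 : w ^ (cyc g a).card < 1 := pow_lt_one₀ hw0 hw1
          (Finset.card_pos.mpr ⟨a, self_mem_cyc g a⟩).ne'
        have h5 : 0 ≤ w ^ (cyc g a).card := by positivity
        constructor
        · apply mul_pos _ h2
          linarith
        · calc (1 - w ^ (cyc g a).card) * dS w (S \ cyc g a) (pm g)
              ≤ 1 * 1 := mul_le_mul (by linarith) h3 h2.le (by norm_num)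
            _ = 1 := by norm_num

/-- P4 (2) -/
theorem p4b (w : ℝ) (g h : Perm V) (S : Finset V) :
    dS w (S.image h) (pm (h * g * h⁻¹)) = dS w S (pm g) := by
  unfold dS
  rw [← Matrix.det_submatrix_equiv_self h (1 - w • (dg (S.image h) * pm (h * g * h⁻¹)))]
  congr 1
  ext a b
  rw [Matrix.submatrix_apply, mat_apply, mat_apply]
  unfold ev
  have h1 : (h a ∈ S.image h) ↔ a ∈ S := by
    rw [Finset.mem_image]
    constructor
    · rintro ⟨b, hb, hbe⟩
      rw [← h.injective hbe]
      exact hb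
    · intro ha
      exact ⟨a, ha, rfl⟩
  have h2 : h⁻¹ (h a) = a := h.symm_apply_apply a
  simp only [h1, Perm.mul_apply, h2, EmbeddingLike.apply_eq_iff_eq]

theorem p4 : S_P4 := by
  intro V _ _ g h w S hw0 hw1
  exact ⟨p4a w g hw0 hw1 S, p4b w g h S, fun a ha hex => p4c w S g a ha hex,
    fun a ha hS => p4d w S g a ha hS⟩

end Pool.Agent.Q153.LC
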