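import Pool.Agent.Q153.LC.P34

/-!
Russo's formula in the marking parameter (job RUS of project LC).
-/

set_option autoImplicit false
set_option linter.unusedSectionVars false

namespace Pool.Agent.Q153.LC

open Finset Equiv Matrix Q292.LC

variable {V : Type} [DecidableEq V] [Fintype V]

omit [Fintype V] in
lemma inv_pow (g : Perm V) (A : Finset V) (hA : Inv g A) (a : V) (ha : a ∈ A) (i : ℕ) :
    (g ^ i) a ∈ A := by
  induction i with
  | zero => simpa using ha
  | succ i ih =>
    rw [pow_succ', Perm.mul_apply]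
    exact hA _ ih

lemma inv_same (g : Perm V) (A : Finset V) (hA : Inv g A) (a b : V) (ha : a ∈ A)
    (hab : g.SameCycle a b) : b ∈ A := by
  obtain ⟨i, _, hi⟩ := hab.exists_pow_eq'
  rw [← hi]
  exact inv_pow g A hA a ha i

lemma cyc_sub (g : Perm V) (A : Finset V) (hA : Inv g A) (a : V) (ha : a ∈ A) : cyc g a ⊆ A := by
  intro b hb
  exact inv_same g A hA a b ha ((mem_cyc g a b).mp hb)

lemma cyc_disj (g : Perm V) (A : Finset V) (hA : Inv g A) (a : V) (ha : a ∉ A) :
    Disjoint A (cyc g a) := by
  rw [Finset.disjoint_left]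
  intro b hb hbc
  exact ha (inv_same g A hA b a hb ((mem_cyc g a b).mp hbc).symm)

lemma inv_cyc (g : Perm V) (a : V) : Inv g (cyc g a) := by
  intro b hb
  rw [mem_cyc] at hb ⊢
  exact Perm.sameCycle_apply_right.mpr hb

lemma inv_sdiff (g : Perm V) (A B : Finset V) (hA : Inv g A) (hB : Inv g B) : Inv g (A \ B) := by
  intro a ha
  rw [Finset.mem_sdiff] at ha ⊢
  refine ⟨hA a ha.1, fun h => ha.2 ?_⟩
  exact inv_same g B hB (g a) a h (Perm.sameCycle_apply_left.mpr (Perm.SameCycle.refl g a))

omit [Fintype V] in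
lemma inv_union (g : Perm V) (A B : Finset V) (hA : Inv g A) (hB : Inv g B) : Inv g (A ∪ B) := by
  intro a ha
  rw [Finset.mem_union] at ha ⊢
  rcases ha with h | h
  · exact Or.inl (hA a h)
  · exact Or.inr (hB a h)

lemma inv_univ (g : Perm V) : Inv g univ := fun _ _ => Finset.mem_univ _

lemma cyc_eq (g : Perm V) (a b : V) (h : b ∈ cyc g a) : cyc g b = cyc g a := by
  rw [mem_cyc] at h
  ext c
  rw [mem_cyc, mem_cyc]
  exact ⟨fun h2 => h.trans h2, fun h2 => h.symm.trans h2⟩

/-- the derivative of the determinant of an invariant set -/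
lemma dS_deriv (g : Perm V) (w : ℝ) (S : Finset V) : Inv g S →
    HasDerivAt (fun w' : ℝ => dS w' S (pm g))
      (-(∑ x ∈ S, w ^ ((cyc g x).card - 1) * dS w (S \ cyc g x) (pm g))) w := by
  induction S using Finset.strongInduction with
  | H S ih =>
    intro hS
    rcases S.eq_empty_or_nonempty with rfl | ⟨a, ha⟩
    · have h1 : (fun w' : ℝ => dS w' ∅ (pm g)) = fun _ => (1 : ℝ) := by
        funext w'
        exact dS_empty w' _
      rw [h1]
      simpa using hasDerivAt_const w (1 : ℝ)
    · have hC : cyc g a ⊆ S := cyc_sub g S hS a ha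
      have hss : S \ cyc g a ⊂ S := Finset.sdiff_ssubset hC ⟨a, self_mem_cyc g a⟩
      have hi := inv_sdiff g S (cyc g a) hS (inv_cyc g a)
      have h1 := ih _ hss hi
      have h2 : (fun w' : ℝ => dS w' S (pm g)) =
          fun w' : ℝ => (1 - w' ^ (cyc g a).card) * dS w' (S \ cyc g a) (pm g) := by
        funext w'
        exact p4d w' S g a ha hC
      rw [h2]
      have h3 : HasDerivAt (fun w' : ℝ => 1 - w' ^ (cyc g a).card)
          (-(((cyc g a).card : ℝ) * w ^ ((cyc g a).card - 1))) w := by
        have := (hasDerivAt_pow (cyc g a).card w).const_sub 1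
        simpa using this
      have h4 := h3.mul h1
      refine h4.congr_deriv ?_
      have h5 : ∑ x ∈ S, w ^ ((cyc g x).card - 1) * dS w (S \ cyc g x) (pm g) =
          ∑ x ∈ S \ cyc g a, w ^ ((cyc g x).card - 1) * dS w (S \ cyc g x) (pm g) +
          ∑ x ∈ cyc g a, w ^ ((cyc g x).card - 1) * dS w (S \ cyc g x) (pm g) :=
        (Finset.sum_sdiff hC).symm
      have h6 : ∑ x ∈ cyc g a, w ^ ((cyc g x).card - 1) * dS w (S \ cyc g x) (pm g) =
          ((cyc g a).card : ℝ) * w ^ ((cyc g a).card - 1) * dS w (S \ cyc g a) (pm g) := by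
        rw [Finset.sum_congr rfl (g := fun _ => w ^ ((cyc g a).card - 1) *
          dS w (S \ cyc g a) (pm g)), Finset.sum_const, nsmul_eq_mul]
        · ring
        · intro x hx
          rw [cyc_eq g a x hx]
      have h7 : ∑ x ∈ S \ cyc g a, w ^ ((cyc g x).card - 1) * dS w (S \ cyc g x) (pm g) =
          (1 - w ^ (cyc g a).card) * ∑ x ∈ S \ cyc g a, w ^ ((cyc g x).card - 1) *
            dS w ((S \ cyc g a) \ cyc g x) (pm g) := by
        rw [Finset.mul_sum]
        apply Finset.sum_congr rfl
        intro x hx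
        have hd : Disjoint (cyc g a) (cyc g x) := by
          apply cyc_disj g _ (inv_cyc g a)
          exact (Finset.mem_sdiff.mp hx).2
        have ha2 : a ∈ S \ cyc g x := by
          rw [Finset.mem_sdiff]
          exact ⟨ha, Finset.disjoint_left.mp hd (self_mem_cyc g a)⟩
        have hsub : cyc g a ⊆ S \ cyc g x := by
          intro b hb
          rw [Finset.mem_sdiff]
          exact ⟨hC hb, Finset.disjoint_left.mp hd hb⟩
        rw [p4d w (S \ cyc g x) g a ha2 hsub]
        have h8 : (S \ cyc g x) \ cyc g a = (S \ cyc g a) \ cyc g x := by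
          ext b
          simp only [Finset.mem_sdiff]
          tauto
        rw [h8]
        ring
      rw [h5, h6, h7]
      ring

theorem rus_eq (g : Perm V) (b : Finset V → ℝ) (w : ℝ) :
    HasDerivAt (fun w' : ℝ => ∑ A : Finset V, if Inv g A then
      w' ^ A.card * dS w' (univ \ A) (pm g) * b A else 0)
      (∑ x : V, ∑ A : Finset V, if Inv g A ∧ x ∉ A then
        w ^ (A.card + (cyc g x).card - 1) * dS w (univ \ (A ∪ cyc g x)) (pm g) *
          (b (A ∪ cyc g x) - b A) else 0) w := by
  have h1 : HasDerivAt (fun w' : ℝ => ∑ A : Finset V, if Inv g A then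
      w' ^ A.card * dS w' (univ \ A) (pm g) * b A else 0)
      (∑ A : Finset V, if Inv g A then ((A.card : ℝ) * w ^ (A.card - 1) * dS w (univ \ A) (pm g) +
        w ^ A.card * (-(∑ x ∈ univ \ A, w ^ ((cyc g x).card - 1) *
          dS w ((univ \ A) \ cyc g x) (pm g)))) * b A else 0) w := by
    apply HasDerivAt.fun_sum
    intro A _
    by_cases hA : Inv g A
    · simp only [if_pos hA]
      exact ((hasDerivAt_pow A.card w).mul
        (dS_deriv g w (univ \ A) (inv_sdiff g univ A (inv_univ g) hA))).mul_const (b A)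
    · simp only [if_neg hA]
      exact hasDerivAt_const w 0
  refine h1.congr_deriv ?_
  -- first part
  have h2 : ∀ x : V, ∑ A : Finset V, (if Inv g A ∧ x ∈ A then
      w ^ (A.card - 1) * dS w (univ \ A) (pm g) * b A else 0) =
      ∑ A : Finset V, (if Inv g A ∧ x ∉ A then w ^ (A.card + (cyc g x).card - 1) *
        dS w (univ \ (A ∪ cyc g x)) (pm g) * b (A ∪ cyc g x) else 0) := by
    intro x
    rw [← Finset.sum_filter, ← Finset.sum_filter]
    refine Finset.sum_nbij' (fun A => A \ cyc g x) (fun A => A ∪ cyc g x) ?_ ?_ ?_ ?_ ?_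
    · intro A hA
      simp only [Finset.mem_filter, Finset.mem_univ, true_and] at hA ⊢
      exact ⟨inv_sdiff g A _ hA.1 (inv_cyc g x), fun h =>
        (Finset.mem_sdiff.mp h).2 (self_mem_cyc g x)⟩
    · intro A hA
      simp only [Finset.mem_filter, Finset.mem_univ, true_and] at hA ⊢
      exact ⟨inv_union g A _ hA.1 (inv_cyc g x), Finset.mem_union_right _ (self_mem_cyc g x)⟩
    · intro A hA
      simp only [Finset.mem_filter, Finset.mem_univ, true_and] at hA
      exact Finset.sdiff_union_of_subset (cyc_sub g A hA.1 x hA.2)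
    · intro A hA
      simp only [Finset.mem_filter, Finset.mem_univ, true_and] at hA
      exact Finset.union_sdiff_cancel_right (cyc_disj g A hA.1 x hA.2)
    · intro A hA
      simp only [Finset.mem_filter, Finset.mem_univ, true_and] at hA
      have hs := cyc_sub g A hA.1 x hA.2
      have h3 : (A \ cyc g x) ∪ cyc g x = A := Finset.sdiff_union_of_subset hs
      have h4 : (A \ cyc g x).card + (cyc g x).card = A.card := by
        rw [← Finset.card_union_of_disjoint Finset.sdiff_disjoint, h3]
      rw [h3, h4]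
  have h5 : ∀ A : Finset V, (if Inv g A then ((A.card : ℝ) * w ^ (A.card - 1) *
        dS w (univ \ A) (pm g) + w ^ A.card * (-(∑ x ∈ univ \ A, w ^ ((cyc g x).card - 1) *
          dS w ((univ \ A) \ cyc g x) (pm g)))) * b A else 0) =
      ∑ x : V, ((if Inv g A ∧ x ∈ A then w ^ (A.card - 1) * dS w (univ \ A) (pm g) * b A else 0) -
        (if Inv g A ∧ x ∉ A then w ^ (A.card + (cyc g x).card - 1) *
          dS w (univ \ (A ∪ cyc g x)) (pm g) * b A else 0)) := by
    intro A
    by_cases hA : Inv g A
    · simp only [hA, true_and, if_true]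
      rw [Finset.sum_sub_distrib, ← Finset.sum_filter, ← Finset.sum_filter]
      have h6 : (univ.filter fun x : V => x ∈ A) = A := by
        ext x; simp
      have h7 : (univ.filter fun x : V => x ∉ A) = univ \ A := by
        ext x; simp
      rw [h6, h7, Finset.sum_const, nsmul_eq_mul]
      have h8 : ∑ x ∈ univ \ A, w ^ (A.card + (cyc g x).card - 1) *
          dS w (univ \ (A ∪ cyc g x)) (pm g) * b A =
          w ^ A.card * (∑ x ∈ univ \ A, w ^ ((cyc g x).card - 1) *
          dS w ((univ \ A) \ cyc g x) (pm g)) * b A := by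
        rw [Finset.mul_sum, Finset.sum_mul]
        apply Finset.sum_congr rfl
        intro x _
        have hc : 0 < (cyc g x).card := Finset.card_pos.mpr ⟨x, self_mem_cyc g x⟩
        have h9 : A.card + (cyc g x).card - 1 = A.card + ((cyc g x).card - 1) := by omega
        rw [h9, pow_add, Finset.sdiff_union_distrib]
        have h10 : (univ \ A) ∩ (univ \ cyc g x) = (univ \ A) \ cyc g x := by
          ext y; simp
        rw [h10]
        ring
      rw [h8]
      ring
    · simp [hA]
  rw [Finset.sum_congr rfl fun A _ => h5 A, Finset.sum_comm]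
  apply Finset.sum_congr rfl
  intro x _
  rw [Finset.sum_sub_distrib, h2 x, ← Finset.sum_sub_distrib]
  apply Finset.sum_congr rfl
  intro A _
  by_cases hA : Inv g A ∧ x ∉ A
  · simp only [if_pos hA]
    ring
  · simp only [if_neg hA]
    ring

theorem rus : S_RUS := by
  intro V _ _ g b w hw0 hw1
  refine ⟨_, rus_eq g b w, ?_⟩
  apply Finset.sum_le_sum
  intro x _
  apply Finset.sum_le_sum
  intro A _
  by_cases hA : Inv g A ∧ x ∉ A
  · simp only [if_pos hA]
    apply mul_le_mul_of_nonneg_left (le_max_right _ _)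
    apply mul_nonneg (by positivity)
    exact (p4a w g hw0 hw1 _).1.le
  · simp only [if_neg hA]
    exact le_rfl

end Pool.Agent.Q153.LC
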